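import Mathlib
import Pool.Agent.Helper547.Alpha.Dilate

set_option autoImplicit false

open scoped InnerProductSpace

open Finset ComplexConjugate

namespace Pool.Agent.Helper626.Alpha

open Pool.Agent.Helper547.Alpha

lemma wT_pow_four (t : Fin 4) : wT t ^ 4 = 1 := by
  have h : (-Complex.I) ^ 4 = 1 := by
    rw [neg_pow, Complex.I_pow_four]; norm_num
  have h' : (-1 : ℂ) ^ 4 = 1 := by norm_num
  fin_cases t
  · simp [wT]
  · simp [wT]
  · simp only [wT]; exact h'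
  · simp only [wT]; exact h

lemma wT_conj (t : Fin 4) : conj (wT t) = wT t ^ 3 := by
  have h : Complex.I ^ 3 = -Complex.I := by
    rw [show (3 : ℕ) = 2 + 1 by rfl, pow_succ, Complex.I_sq]; ring
  fin_cases t
  · simp [wT]
  · simp [wT]
  · simp [wT]; norm_num
  · simp only [wT]
    change conj (-Complex.I) = (-Complex.I) ^ 3
    rw [map_neg, Complex.conj_I, neg_pow, h]; norm_num

lemma sum_pow_wT (e : ℕ) : ∑ t, wT t ^ e = if 4 ∣ e then 4 else 0 := by
  have h : ∀ t, wT t ^ e = wT t ^ (e % 4) := by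
    intro t
    conv_lhs => rw [← Nat.div_add_mod e 4]
    rw [pow_add, pow_mul, wT_pow_four, one_pow, one_mul]
  simp only [h]
  have h3 : Complex.I ^ 3 = -Complex.I := by
    rw [show (3 : ℕ) = 2 + 1 by rfl, pow_succ, Complex.I_sq]; ring
  have hlt : e % 4 < 4 := Nat.mod_lt _ (by norm_num)
  rcases (by omega : e % 4 = 0 ∨ e % 4 = 1 ∨ e % 4 = 2 ∨ e % 4 = 3) with h0 | h0 | h0 | h0
  · rw [h0, if_pos (by omega)]; simp
  · rw [h0, if_neg (by omega)]; simp [Fin.sum_univ_four, wT]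
  · rw [h0, if_neg (by omega)]; simp [Fin.sum_univ_four, wT]
  · rw [h0, if_neg (by omega)]
    have e1 : (-Complex.I) ^ 3 = Complex.I := by rw [neg_pow, h3]; norm_num
    have e2 : (-1 : ℂ) ^ 3 = -1 := by norm_num
    simp [Fin.sum_univ_four, wT, h3, e1, e2]

section
variable {n : ℕ}

lemma sum_prod_wT (e : Fin n → ℕ) :
    ∑ ω : Fin n → Fin 4, ∏ i, wT (ω i) ^ (e i) = if ∀ i, 4 ∣ e i then (4 : ℂ) ^ n else 0 := by
  have h1 : ∑ ω : Fin n → Fin 4, ∏ i, wT (ω i) ^ (e i) = ∏ i, ∑ t, wT t ^ (e i) := by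
    rw [Finset.prod_univ_sum, Fintype.piFinset_univ]
  rw [h1]
  simp only [sum_pow_wT]
  split_ifs with h
  · simp [h]
  · push Not at h
    obtain ⟨i, hi⟩ := h
    exact Finset.prod_eq_zero (mem_univ i) (if_neg hi)

lemma mono (ω : Fin n → Fin 4) (l : Fin n) (d : ℕ) :
    wT (ω l) ^ d = ∏ i, wT (ω i) ^ (if i = l then d else 0) := by
  rw [Finset.prod_eq_single l]
  · simp
  · intro i _ hi; simp [hi]
  · simp

lemma six (k l c a b : Fin n) (hkl : k ≠ l) :
    ∑ ω : Fin n → Fin 4, conj (wT (ω k) ^ 2 * conj (wT (ω l))) *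
      (wT (ω c) * wT (ω a) * conj (wT (ω b))) =
      (4 : ℂ) ^ n * (if c = k ∧ a = k ∧ b = l then 1 else 0) := by
  have e1 : ∀ ω : Fin n → Fin 4, conj (wT (ω k) ^ 2 * conj (wT (ω l))) *
      (wT (ω c) * wT (ω a) * conj (wT (ω b))) =
      ∏ i, wT (ω i) ^ ((if i = k then 6 else 0) + (if i = l then 1 else 0) +
        (if i = c then 1 else 0) + (if i = a then 1 else 0) + (if i = b then 3 else 0)) := by
    intro ω
    simp only [pow_add, Finset.prod_mul_distrib, ← mono]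
    rw [map_mul, map_pow, Complex.conj_conj, wT_conj, wT_conj]
    ring
  simp only [e1]
  rw [sum_prod_wT]
  by_cases h : c = k ∧ a = k ∧ b = l
  · rw [if_pos h, mul_one, if_pos]
    obtain ⟨rfl, rfl, rfl⟩ := h
    intro i
    by_cases hi : i = a
    · subst hi; simp [hkl]
    · by_cases hi2 : i = b
      · subst hi2; simp [hi]
      · simp [hi, hi2]
  · rw [if_neg h, mul_zero, if_neg]
    intro hall
    apply h
    have hk := hall k
    have hl := hall l
    rw [if_pos rfl, if_neg hkl] at hk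
    rw [if_neg hkl.symm, if_pos rfl] at hl
    have key : k = c ∧ k = a ∧ ¬ k = b := by
      split_ifs at hk with h1 h2 h3 h3 h2 h3 h3 <;> omega
    obtain ⟨h1, h2, h3⟩ := key
    rw [if_neg (fun h => hkl (h1.trans h.symm)), if_neg (fun h => hkl (h2.trans h.symm))] at hl
    have h4 : l = b := by
      by_contra h4
      rw [if_neg h4] at hl
      omega
    exact ⟨h1.symm, h2.symm, h4.symm⟩

variable {K : Type*} [NormedAddCommGroup K] [InnerProductSpace ℂ K]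

/-- the cubic vectors `∑ w_k² w̄_l H_{kl}` see only the coefficient of `w_k² w̄_l`. -/
lemma sum_cubic (H : Fin n → Fin n → K) (hH : ∀ k, H k k = 0) (Z : Fin n → Fin n → Fin n → K) :
    ∑ ω : Fin n → Fin 4, ⟪∑ k, ∑ l, (wT (ω k) ^ 2 * conj (wT (ω l))) • H k l,
      ∑ c, ∑ a, ∑ b, (wT (ω c) * wT (ω a) * conj (wT (ω b))) • Z c a b⟫_ℂ =
      (4 : ℂ) ^ n * ∑ k, ∑ l, ⟪H k l, Z k k l⟫_ℂ := by
  have e : ∀ ω : Fin n → Fin 4, ⟪∑ k, ∑ l, (wT (ω k) ^ 2 * conj (wT (ω l))) • H k l,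
      ∑ c, ∑ a, ∑ b, (wT (ω c) * wT (ω a) * conj (wT (ω b))) • Z c a b⟫_ℂ =
      ∑ k, ∑ l, ∑ c, ∑ a, ∑ b, (conj (wT (ω k) ^ 2 * conj (wT (ω l))) *
        (wT (ω c) * wT (ω a) * conj (wT (ω b)))) * ⟪H k l, Z c a b⟫_ℂ := by
    intro ω
    rw [sum_inner]
    refine Finset.sum_congr rfl fun k _ => ?_
    rw [sum_inner]
    refine Finset.sum_congr rfl fun l _ => ?_
    rw [inner_sum]
    refine Finset.sum_congr rfl fun c _ => ?_
    rw [inner_sum]
    refine Finset.sum_congr rfl fun a _ => ?_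
    rw [inner_sum]
    refine Finset.sum_congr rfl fun b _ => ?_
    rw [inner_smul_left, inner_smul_right]
    ring
  simp only [e]
  rw [Finset.sum_comm, Finset.mul_sum]
  refine Finset.sum_congr rfl fun k _ => ?_
  rw [Finset.sum_comm, Finset.mul_sum]
  refine Finset.sum_congr rfl fun l _ => ?_
  by_cases hkl : k = l
  · subst hkl
    simp [hH]
  · rw [Finset.sum_comm]
    have e1 : ∀ c, ∑ ω : Fin n → Fin 4, ∑ a, ∑ b, (conj (wT (ω k) ^ 2 * conj (wT (ω l))) *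
        (wT (ω c) * wT (ω a) * conj (wT (ω b)))) * ⟪H k l, Z c a b⟫_ℂ =
        if c = k then (4 : ℂ) ^ n * ⟪H k l, Z k k l⟫_ℂ else 0 := by
      intro c
      rw [Finset.sum_comm]
      have e2 : ∀ a, ∑ ω : Fin n → Fin 4, ∑ b, (conj (wT (ω k) ^ 2 * conj (wT (ω l))) *
          (wT (ω c) * wT (ω a) * conj (wT (ω b)))) * ⟪H k l, Z c a b⟫_ℂ =
          if c = k ∧ a = k then (4 : ℂ) ^ n * ⟪H k l, Z k k l⟫_ℂ else 0 := by
        intro a
        rw [Finset.sum_comm]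
        have e3 : ∀ b, ∑ ω : Fin n → Fin 4, (conj (wT (ω k) ^ 2 * conj (wT (ω l))) *
            (wT (ω c) * wT (ω a) * conj (wT (ω b)))) * ⟪H k l, Z c a b⟫_ℂ =
            if b = l then (if c = k ∧ a = k then (4 : ℂ) ^ n * ⟪H k l, Z k k l⟫_ℂ else 0) else 0 := by
          intro b
          rw [← Finset.sum_mul, six k l c a b hkl]
          by_cases h1 : c = k <;> by_cases h2 : a = k <;> by_cases h3 : b = l <;>
            simp [h1, h2, h3]
        simp only [e3]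
        simp
      simp only [e2]
      by_cases h1 : c = k <;> simp [h1]
    simp only [e1]
    simp

lemma wT_mul_conj (t : Fin 4) : wT t * conj (wT t) = 1 := by
  rw [wT_conj, ← pow_succ', wT_pow_four]

/-- the averaged squared norm of a sum of linear and cubic terms -/
lemma avg_cubic (F : Fin n → K) (H : Fin n → Fin n → K) (hH : ∀ k, H k k = 0) :
    ∑ ω : Fin n → Fin 4, ‖∑ i, wT (ω i) • F i +
        ∑ k, ∑ l, (wT (ω k) ^ 2 * conj (wT (ω l))) • H k l‖ ^ 2 =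
      (Fintype.card (Fin 4) : ℝ) ^ n * (∑ i, ‖F i‖ ^ 2 + ∑ k, ∑ l, ‖H k l‖ ^ 2) := by
  rcases Nat.eq_zero_or_pos n with hn | hn
  · subst hn; simp
  have i0 : Fin n := ⟨0, hn⟩
  set V : (Fin n → Fin 4) → K := fun ω => ∑ k, ∑ l, (wT (ω k) ^ 2 * conj (wT (ω l))) • H k l with hV
  set U : (Fin n → Fin 4) → K := fun ω => ∑ i, wT (ω i) • F i with hU
  have hUZ : ∀ ω, U ω = ∑ c, ∑ a, ∑ b, (wT (ω c) * wT (ω a) * conj (wT (ω b))) •
      (if a = i0 ∧ b = i0 then F c else 0) := by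
    intro ω
    refine Finset.sum_congr rfl fun c _ => ?_
    rw [Finset.sum_eq_single i0]
    · rw [Finset.sum_eq_single i0]
      · rw [if_pos ⟨rfl, rfl⟩, mul_assoc, wT_mul_conj, mul_one]
      · intro b _ hb; simp [hb]
      · simp
    · intro a _ ha; simp [ha]
    · simp
  have hVZ : ∀ ω, V ω = ∑ c, ∑ a, ∑ b, (wT (ω c) * wT (ω a) * conj (wT (ω b))) •
      (if c = a then H c b else 0) := by
    intro ω
    refine Finset.sum_congr rfl fun c _ => ?_
    have e0 : ∀ a ∈ (univ : Finset (Fin n)), a ≠ c →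
        ∑ b, (wT (ω c) * wT (ω a) * conj (wT (ω b))) • (if c = a then H c b else 0) = 0 := by
      intro a _ ha
      refine Finset.sum_eq_zero fun b _ => ?_
      rw [if_neg (Ne.symm ha), smul_zero]
    rw [Finset.sum_eq_single c e0 (fun h => absurd (mem_univ c) h)]
    refine Finset.sum_congr rfl fun b _ => ?_
    rw [if_pos rfl, pow_two]
  have hVU : ∑ ω, ⟪V ω, U ω⟫_ℂ = 0 := by
    simp only [hUZ]
    rw [sum_cubic H hH (fun c a b => if a = i0 ∧ b = i0 then F c else 0)]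
    have : ∀ k l : Fin n, ⟪H k l, (if k = i0 ∧ l = i0 then F k else 0)⟫_ℂ = 0 := by
      intro k l
      by_cases h : k = i0 ∧ l = i0
      · obtain ⟨h1, h2⟩ := h
        rw [h1, h2, hH]; simp
      · rw [if_neg h, inner_zero_right]
    simp [this]
  have hVV : ∑ ω, ⟪V ω, V ω⟫_ℂ = (4 : ℂ) ^ n * ∑ k, ∑ l, ⟪H k l, H k l⟫_ℂ := by
    have h := sum_cubic H hH (fun c a b => if c = a then H c b else 0)
    simp only [if_true] at h
    rw [← h]
    refine Finset.sum_congr rfl fun ω _ => ?_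
    rw [← hVZ ω]
  have hVV' : ∑ ω, ‖V ω‖ ^ 2 = (4 : ℝ) ^ n * ∑ k, ∑ l, ‖H k l‖ ^ 2 := by
    have h : ((∑ ω, ‖V ω‖ ^ 2 : ℝ) : ℂ) = (((4 : ℝ) ^ n * ∑ k, ∑ l, ‖H k l‖ ^ 2 : ℝ) : ℂ) := by
      simp only [inner_self_eq_norm_sq_to_K] at hVV
      push_cast
      exact hVV
    exact_mod_cast h
  have hUU := avg_norm_sq (n := n) mom_wT F
  have hexp : ∀ ω, ‖U ω + V ω‖ ^ 2 = ‖U ω‖ ^ 2 + 2 * RCLike.re ⟪V ω, U ω⟫_ℂ + ‖V ω‖ ^ 2 := by
    intro ω
    rw [add_comm (U ω), norm_add_sq (𝕜 := ℂ)]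
    ring
  change ∑ ω, ‖U ω + V ω‖ ^ 2 = _
  simp only [hexp, Finset.sum_add_distrib, ← Finset.mul_sum]
  rw [← map_sum, hVU, hVV']
  change ∑ ω : Fin n → Fin 4, ‖U ω‖ ^ 2 = _ at hUU
  rw [hUU]
  simp
  ring

end

end Pool.Agent.Helper626.Alpha
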