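import Mathlib

set_option autoImplicit false

open scoped InnerProductSpace

open Finset ComplexConjugate

namespace Pool.Agent.Helper626.Alpha

section dft

variable {K : Type*} [NormedAddCommGroup K] [InnerProductSpace ℂ K]

/-- Parseval for the finite Fourier transform of a vector-valued sequence. -/
lemma parseval {M : ℕ} (hM : 0 < M) {ζ : ℂ} (hζ : IsPrimitiveRoot ζ M) (y : ℕ → K) :
    ∑ j ∈ range M, ‖∑ k ∈ range M, (ζ ^ (j * k)) • y k‖ ^ 2 =
      (M : ℝ) * ∑ k ∈ range M, ‖y k‖ ^ 2 := by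
  have hn : ‖ζ‖ = 1 := hζ.norm'_eq_one hM.ne'
  have hconj : conj ζ * ζ = 1 := by
    rw [← Complex.normSq_eq_conj_mul_self, Complex.normSq_eq_norm_sq, hn]; simp
  have horth : ∀ k ∈ range M, ∀ l ∈ range M,
      ∑ j ∈ range M, conj (ζ ^ (j * k)) * ζ ^ (j * l) = if k = l then (M : ℂ) else 0 := by
    intro k hk l hl
    have e : ∀ j, conj (ζ ^ (j * k)) * ζ ^ (j * l) = (conj (ζ ^ k) * ζ ^ l) ^ j := by
      intro j
      rw [mul_pow, ← map_pow, ← pow_mul, ← pow_mul, mul_comm j k, mul_comm j l]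
    simp only [e]
    split_ifs with h
    · subst h
      have : conj (ζ ^ k) * ζ ^ k = 1 := by
        rw [map_pow, ← mul_pow, hconj, one_pow]
      simp only [this, one_pow]
      simp
    · set q := conj (ζ ^ k) * ζ ^ l with hq
      have hq1 : q ≠ 1 := by
        intro hq1
        apply h
        have h1 : ζ ^ k * (conj (ζ ^ k) * ζ ^ l) = ζ ^ k := by rw [← hq, hq1, mul_one]
        have h2 : ζ ^ k * conj (ζ ^ k) = 1 := by
          rw [map_pow, ← mul_pow, mul_comm ζ, hconj, one_pow]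
        rw [← mul_assoc, h2, one_mul] at h1
        exact (hζ.pow_inj (mem_range.1 hl) (mem_range.1 hk) h1).symm
      have hqM : q ^ M = 1 := by
        rw [hq, mul_pow, ← map_pow, ← pow_mul, ← pow_mul, mul_comm k, mul_comm l, pow_mul, pow_mul,
          hζ.pow_eq_one]
        simp
      have := geom_sum_mul q M
      rw [hqM, sub_self] at this
      rcases mul_eq_zero.1 this with h0 | h0
      · exact h0
      · exact absurd (sub_eq_zero.1 h0) hq1
  have key : ((∑ j ∈ range M, ‖∑ k ∈ range M, (ζ ^ (j * k)) • y k‖ ^ 2 : ℝ) : ℂ) =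
      (((M : ℝ) * ∑ k ∈ range M, ‖y k‖ ^ 2 : ℝ) : ℂ) := by
    rw [Complex.ofReal_sum]
    have e1 : ∀ j, ((‖∑ k ∈ range M, (ζ ^ (j * k)) • y k‖ ^ 2 : ℝ) : ℂ) =
        ∑ k ∈ range M, ∑ l ∈ range M, (conj (ζ ^ (j * k)) * ζ ^ (j * l)) * ⟪y k, y l⟫_ℂ := by
      intro j
      have h := inner_self_eq_norm_sq_to_K (𝕜 := ℂ) (∑ k ∈ range M, (ζ ^ (j * k)) • y k)
      push_cast
      rw [← Complex.coe_algebraMap, ← h, sum_inner]
      refine Finset.sum_congr rfl fun k _ => ?_
      rw [inner_sum]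
      refine Finset.sum_congr rfl fun l _ => ?_
      rw [inner_smul_left, inner_smul_right]
      ring
    simp only [e1]
    rw [Finset.sum_comm]
    have e2 : ∀ k ∈ range M, ∑ j ∈ range M, ∑ l ∈ range M,
        (conj (ζ ^ (j * k)) * ζ ^ (j * l)) * ⟪y k, y l⟫_ℂ = (M : ℂ) * ((‖y k‖ ^ 2 : ℝ) : ℂ) := by
      intro k hk
      rw [Finset.sum_comm]
      have e3 : ∀ l ∈ range M, ∑ j ∈ range M, (conj (ζ ^ (j * k)) * ζ ^ (j * l)) * ⟪y k, y l⟫_ℂ =
          if k = l then (M : ℂ) * ⟪y k, y l⟫_ℂ else 0 := by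
        intro l hl
        rw [← Finset.sum_mul, horth k hk l hl]
        split_ifs <;> simp
      rw [Finset.sum_congr rfl e3, Finset.sum_ite_eq, if_pos hk, inner_self_eq_norm_sq_to_K]
      simp
    rw [Finset.sum_congr rfl e2, ← Finset.mul_sum]
    push_cast
    rfl
  exact_mod_cast key

end dft

section spine

variable {K : Type*} [NormedAddCommGroup K] [InnerProductSpace ℂ K] [CompleteSpace K]

/-- von Neumann type inequality: a unitary commuting with `X₀, X₁` may replace the free phase. -/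
theorem spine (X0 X1 u : K →L[ℂ] K) (hu : star u * u = 1) (hu' : u * star u = 1)
    (h0 : X0 * u = u * X0) (h1 : X1 * u = u * X1)
    (h : ∀ ζ : ℂ, ‖ζ‖ ≤ 1 → ‖X0 + ζ • X1‖ ≤ 1) : ‖X0 + u * X1‖ ≤ 1 := by
  set v := star u with hv
  have c0 : X0 * v = v * X0 := by
    calc X0 * v = (v * u) * (X0 * v) := by rw [hu, one_mul]
      _ = v * (u * X0) * v := by simp only [mul_assoc]
      _ = v * (X0 * u) * v := by rw [h0]
      _ = v * X0 * (u * v) := by simp only [mul_assoc]
      _ = v * X0 := by rw [hu', mul_one]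
  have c1 : X1 * v = v * X1 := by
    calc X1 * v = (v * u) * (X1 * v) := by rw [hu, one_mul]
      _ = v * (u * X1) * v := by simp only [mul_assoc]
      _ = v * (X1 * u) * v := by rw [h1]
      _ = v * X1 * (u * v) := by simp only [mul_assoc]
      _ = v * X1 := by rw [hu', mul_one]
  have c0k : ∀ k, X0 * v ^ k = v ^ k * X0 := fun k => (Commute.pow_right (show Commute X0 v from c0) k)
  have c1k : ∀ k, X1 * v ^ k = v ^ k * X1 := fun k => (Commute.pow_right (show Commute X1 v from c1) k)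
  have hiso : ∀ x : K, ‖v x‖ = ‖x‖ := by
    intro x
    have h2 : ‖v x‖ ^ 2 = ‖x‖ ^ 2 := by
      rw [← inner_self_eq_norm_sq (𝕜 := ℂ), ← inner_self_eq_norm_sq (𝕜 := ℂ)]
      congr 1
      rw [hv, ContinuousLinearMap.star_eq_adjoint, ContinuousLinearMap.adjoint_inner_left]
      change ⟪x, (u * star u) x⟫_ℂ = _
      rw [← hv, hu']; rfl
    exact (sq_eq_sq₀ (norm_nonneg _) (norm_nonneg _)).1 h2
  have hisok : ∀ k (x : K), ‖(v ^ k) x‖ = ‖x‖ := by
    intro k
    induction k with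
    | zero => intro x; simp
    | succ k ih =>
      intro x
      rw [pow_succ]
      change ‖(v ^ k) (v x)‖ = _
      rw [ih, hiso]
  apply ContinuousLinearMap.opNorm_le_bound _ zero_le_one
  intro x
  rw [one_mul]
  set Z := X0 + u * X1 with hZ
  have main : ∀ N : ℕ, (N : ℝ) * ‖Z x‖ ^ 2 ≤ (N + 1) * ‖x‖ ^ 2 := by
    intro N
    set M := N + 2 with hM
    have hMpos : 0 < M := by omega
    obtain ⟨ζ, hζ⟩ : ∃ ζ : ℂ, IsPrimitiveRoot ζ M :=
      ⟨_, Complex.isPrimitiveRoot_exp M hMpos.ne'⟩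
    have hζn : ‖ζ‖ = 1 := hζ.norm'_eq_one hMpos.ne'
    -- g
    set g : ℕ → K := fun k => if k < N + 1 then (v ^ k) x else 0 with hg
    set y : ℕ → K := fun k => X0 (g k) + (if k = 0 then 0 else X1 (g (k - 1))) with hy
    have hgj : ∀ j, (X0 + (ζ ^ j) • X1) (∑ k ∈ range M, (ζ ^ (j * k)) • g k) =
        ∑ k ∈ range M, (ζ ^ (j * k)) • y k := by
      intro j
      rw [_root_.add_apply, _root_.smul_apply, map_sum, map_sum]
      simp only [hy, smul_add, Finset.sum_add_distrib, map_smul]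
      congr 1
      rw [Finset.sum_range_succ, Finset.sum_range_succ' _ (N + 1)]
      have e1 : g (N + 1) = 0 := by simp [hg]
      rw [e1, map_zero, smul_zero, add_zero, if_pos rfl, smul_zero, add_zero, Finset.smul_sum]
      refine Finset.sum_congr rfl fun k _ => ?_
      rw [if_neg (Nat.succ_ne_zero k), smul_smul, ← pow_add]
      simp only [Nat.add_sub_cancel]
      congr 2
      ring
    have hle : ∑ j ∈ range M, ‖∑ k ∈ range M, (ζ ^ (j * k)) • y k‖ ^ 2 ≤
        ∑ j ∈ range M, ‖∑ k ∈ range M, (ζ ^ (j * k)) • g k‖ ^ 2 := by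
      refine Finset.sum_le_sum fun j _ => ?_
      rw [← hgj j]
      have h2 : ‖ζ ^ j‖ ≤ 1 := by rw [norm_pow, hζn, one_pow]
      have h3 := (X0 + (ζ ^ j) • X1).le_of_opNorm_le (h _ h2) (∑ k ∈ range M, (ζ ^ (j * k)) • g k)
      rw [one_mul] at h3
      gcongr
    rw [parseval hMpos hζ, parseval hMpos hζ] at hle
    have hMr : (0 : ℝ) < M := by exact_mod_cast hMpos
    have hle2 := le_of_mul_le_mul_left hle hMr
    have hgs : ∑ k ∈ range M, ‖g k‖ ^ 2 = (N + 1) * ‖x‖ ^ 2 := by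
      rw [Finset.sum_range_succ]
      have e1 : g (N + 1) = 0 := by simp [hg]
      rw [e1]
      have e2 : ∀ k ∈ range (N + 1), ‖g k‖ ^ 2 = ‖x‖ ^ 2 := by
        intro k hk
        rw [hg]
        simp only [mem_range.1 hk, if_true, hisok]
      rw [Finset.sum_congr rfl e2]
      simp
    have hys : (N : ℝ) * ‖Z x‖ ^ 2 ≤ ∑ k ∈ range M, ‖y k‖ ^ 2 := by
      rw [Finset.sum_range_succ]
      rw [Finset.sum_range_succ']
      have e2 : ∀ k ∈ range N, ‖y (k + 1)‖ ^ 2 = ‖Z x‖ ^ 2 := by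
        intro k hk
        have hk' := mem_range.1 hk
        have e3 : y (k + 1) = (v ^ (k + 1)) (Z x) := by
          simp only [hy, hg, Nat.add_sub_cancel, if_neg (Nat.succ_ne_zero k)]
          rw [if_pos (by omega), if_pos (by omega)]
          have e4 : v ^ (k + 1) * (u * X1) = v ^ k * X1 := by
            rw [pow_succ]
            calc v ^ k * v * (u * X1) = v ^ k * (v * u) * X1 := by simp only [mul_assoc]
              _ = _ := by rw [hu, mul_one]
          calc X0 ((v ^ (k + 1)) x) + X1 ((v ^ k) x)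
              = (X0 * v ^ (k + 1)) x + (X1 * v ^ k) x := rfl
            _ = (v ^ (k + 1) * X0) x + (v ^ k * X1) x := by rw [c0k, c1k]
            _ = (v ^ (k + 1) * X0 + v ^ (k + 1) * (u * X1)) x := by rw [e4]; rfl
            _ = (v ^ (k + 1) * Z) x := by rw [hZ, mul_add]
            _ = _ := rfl
        rw [e3, hisok]
      rw [Finset.sum_congr rfl e2]
      simp only [Finset.sum_const, Finset.card_range, nsmul_eq_mul]
      have : 0 ≤ ‖y 0‖ ^ 2 := by positivity
      have : 0 ≤ ‖y (N + 1)‖ ^ 2 := by positivity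
      linarith
    linarith [hys.trans (hle2.trans_eq hgs)]
  have h2 : ‖Z x‖ ^ 2 ≤ ‖x‖ ^ 2 := by
    by_contra hcon
    push Not at hcon
    obtain ⟨N, hN⟩ := exists_nat_gt (‖x‖ ^ 2 / (‖Z x‖ ^ 2 - ‖x‖ ^ 2))
    have hd : 0 < ‖Z x‖ ^ 2 - ‖x‖ ^ 2 := by linarith
    rw [div_lt_iff₀ hd] at hN
    have := main N
    nlinarith
  exact (sq_le_sq₀ (norm_nonneg _) (norm_nonneg _)).1 h2

end spine

end Pool.Agent.Helper626.Alpha
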