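import Mathlib
import Pool.Agent.Helper547.Alpha.Dilate
import Pool.Agent.Helper626.Alpha.Spine
import Pool.Agent.Helper626.Alpha.Cubic

set_option autoImplicit false

open scoped InnerProductSpace

open Finset ComplexConjugate

namespace Pool.Agent.Helper626.Alpha

open Pool.Agent.Helper547.Alpha

section

variable {n : ℕ}
variable {K : Type*} [NormedAddCommGroup K] [InnerProductSpace ℂ K] [CompleteSpace K]

lemma split_sum {V : Type*} [AddCommGroup V] {i0 j0 : Fin n} (hij : i0 ≠ j0) (h : Fin n → V) :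
    ∑ k, h k = h i0 + (h j0 + ∑ k ∈ (univ.erase i0).erase j0, h k) := by
  rw [Finset.add_sum_erase _ _ (mem_erase.2 ⟨hij.symm, mem_univ _⟩),
    Finset.add_sum_erase _ _ (mem_univ _)]

lemma card_O {i0 j0 : Fin n} (hij : i0 ≠ j0) :
    (((univ.erase i0).erase j0 : Finset (Fin n)).card : ℝ) = n - 2 := by
  have h1 : ((univ.erase i0).erase j0 : Finset (Fin n)).card + 2 = n := by
    have e1 := Finset.card_erase_add_one (mem_erase.2 ⟨hij.symm, mem_univ j0⟩ : j0 ∈ univ.erase i0)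
    have e2 := Finset.card_erase_add_one (mem_univ i0)
    simp only [Finset.card_univ, Fintype.card_fin] at e2
    omega
  have h2 : ((((univ.erase i0).erase j0 : Finset (Fin n)).card + 2 : ℕ) : ℝ) = n := by rw [h1]
  push_cast at h2
  linarith

theorem pair_est (a b : Fin n → K →L[ℂ] K) (hab : ∀ i j, a i * b j = b j * a i)
    (hab' : ∀ i j, a i * star (b j) = star (b j) * a i)
    (ha : ∀ z : Fin n → ℂ, (∀ i, ‖z i‖ ≤ 1) → ‖∑ i, z i • a i‖ ≤ 1)
    (hb : ∀ i, star (b i) * b i = 1) (hb' : ∀ i, b i * star (b i) = 1)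
    {i0 j0 : Fin n} (hij : i0 ≠ j0) (t p s r : ℝ) (ξ η : K) :
    ‖⟪ξ, (a i0 * b i0 + a j0 * b j0) η + ((t + p + ((n : ℝ) - 2 - 1) * ((t + r) * s) : ℝ) : ℂ) •
        ∑ k ∈ (univ.erase i0).erase j0, (a k * b k) η⟫_ℂ‖ ≤
      Real.sqrt ((1 + ((n : ℝ) - 2) * t ^ 2 + ((n : ℝ) - 2) * ((n : ℝ) - 2 - 1) * r ^ 2) *
        ‖ξ‖ ^ 2) *
      Real.sqrt ((1 + ((n : ℝ) - 2) * p ^ 2 + ((n : ℝ) - 2) * ((n : ℝ) - 2 - 1) * s ^ 2) *
        ‖η‖ ^ 2) := by
  set m : ℝ := (n : ℝ) - 2 with hm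
  set O : Finset (Fin n) := (univ.erase i0).erase j0 with hO
  have hOi : ∀ k ∈ O, k ≠ i0 := fun k hk => (mem_erase.1 (mem_erase.1 hk).2).1
  have hOj : ∀ k ∈ O, k ≠ j0 := fun k hk => (mem_erase.1 hk).1
  have hcard : (O.card : ℝ) = m := card_O hij
  set N : ℝ := (Fintype.card (Fin 4) : ℝ) ^ n with hN
  have hNpos : 0 < N := by rw [hN]; simp
  -- isometries
  have hiso : ∀ l (v : K), ‖b l v‖ = ‖v‖ := by
    intro l v
    have h1 : ‖b l v‖ ^ 2 = ‖v‖ ^ 2 := by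
      rw [← inner_self_eq_norm_sq (𝕜 := ℂ), ← inner_self_eq_norm_sq (𝕜 := ℂ)]
      congr 1
      rw [← ContinuousLinearMap.adjoint_inner_right]
      change ⟪v, (star (b l) * b l) v⟫_ℂ = _
      rw [hb]; rfl
    exact (sq_eq_sq₀ (norm_nonneg _) (norm_nonneg _)).1 h1
  have hiso' : ∀ l (v : K), ‖star (b l) v‖ = ‖v‖ := by
    intro l v
    have h1 : ‖star (b l) v‖ ^ 2 = ‖v‖ ^ 2 := by
      rw [← inner_self_eq_norm_sq (𝕜 := ℂ), ← inner_self_eq_norm_sq (𝕜 := ℂ)]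
      congr 1
      rw [ContinuousLinearMap.star_eq_adjoint, ContinuousLinearMap.adjoint_inner_left]
      change ⟪v, (b l * star (b l)) v⟫_ℂ = _
      rw [hb']; rfl
    exact (sq_eq_sq₀ (norm_nonneg _) (norm_nonneg _)).1 h1
  have hinv : ∀ l (v : K), star (b l) (b l v) = v := by
    intro l v
    change (star (b l) * b l) v = v
    rw [hb]; rfl
  have hinv' : ∀ l (v : K), b l (star (b l) v) = v := by
    intro l v
    change (b l * star (b l)) v = v
    rw [hb']; rfl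
  have hcm : ∀ i j (v : K), a i (b j v) = b j (a i v) := by
    intro i j v
    change (a i * b j) v = (b j * a i) v
    rw [hab]
  have hcm' : ∀ i j (v : K), a i (star (b j) v) = star (b j) (a i v) := by
    intro i j v
    change (a i * star (b j)) v = (star (b j) * a i) v
    rw [hab']
  have hadj : ∀ l (v w : K), ⟪star (b l) v, w⟫_ℂ = ⟪v, b l w⟫_ℂ := by
    intro l v w
    rw [ContinuousLinearMap.star_eq_adjoint, ContinuousLinearMap.adjoint_inner_left]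
  set u : K →L[ℂ] K := star (b i0) * b j0 with hu
  -- arrays
  set F : Fin n → K := fun k => if k = i0 then star (b i0) ξ else if k = j0 then 0 else
    (t : ℂ) • star (b k) ξ with hF
  set Al : Fin n → (K →L[ℂ] K) := fun k => if k = i0 then a i0 + u * a j0 else
    if k = j0 then 0 else a k with hAl
  set y : Fin n → Fin n → K := fun c d =>
    if c = i0 then (if d = i0 then ((1 - s * m : ℝ) : ℂ) • η else if d = j0 then 0 else
      (p : ℂ) • star (b i0) (b d η))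
    else if c = j0 then 0 else (if d = i0 then 0 else if d = j0 then 0 else
      (s : ℂ) • star (b c) (b d η)) with hy
  set H : Fin n → Fin n → K := fun k l => if k ∈ O ∧ l ∈ O ∧ k ≠ l then
    (r : ℂ) • star (b k) (b l (star (b k) ξ)) else 0 with hH
  have H0 : ∀ k, H k k = 0 := by intro k; simp [hH]
  have H1 : ∀ k ∈ O, ∀ l ∈ O, k ≠ l → H k l = (r : ℂ) • star (b k) (b l (star (b k) ξ)) := by
    intro k hk l hl hkl
    simp only [hH]
    rw [if_pos ⟨hk, hl, hkl⟩]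
  have H2 : ∀ k, k ∉ O → ∀ l, H k l = 0 := by
    intro k hk l
    simp only [hH]
    rw [if_neg (fun h => hk h.1)]
  have H3 : ∀ k l, l ∉ O → H k l = 0 := by
    intro k l hl
    simp only [hH]
    rw [if_neg (fun h => hl h.2.1)]
  have hi0 : i0 ∉ O := fun h => hOi i0 h rfl
  have hj0 : j0 ∉ O := fun h => hOj j0 h rfl
  have F0 : F i0 = star (b i0) ξ := by simp [hF]
  have F1 : F j0 = 0 := by simp [hF, hij.symm]
  have F2 : ∀ k ∈ O, F k = (t : ℂ) • star (b k) ξ := by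
    intro k hk; simp [hF, hOi k hk, hOj k hk]
  have A0 : Al i0 = a i0 + u * a j0 := by simp [hAl]
  have A1 : Al j0 = 0 := by simp [hAl, hij.symm]
  have A2 : ∀ k ∈ O, Al k = a k := by
    intro k hk; simp [hAl, hOi k hk, hOj k hk]
  have y00 : y i0 i0 = ((1 - s * m : ℝ) : ℂ) • η := by simp [hy]
  have y01 : y i0 j0 = 0 := by simp [hy, hij.symm]
  have y02 : ∀ k ∈ O, y i0 k = (p : ℂ) • star (b i0) (b k η) := by
    intro k hk; simp [hy, hOi k hk, hOj k hk]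
  have y1 : ∀ k, y j0 k = 0 := by intro k; simp [hy, hij.symm]
  have y20 : ∀ k ∈ O, y k i0 = 0 := by
    intro k hk; simp [hy, hOi k hk, hOj k hk]
  have y21 : ∀ k ∈ O, y k j0 = 0 := by
    intro k hk; simp [hy, hOi k hk, hOj k hk]
  have y22 : ∀ k ∈ O, ∀ l ∈ O, y k l = (s : ℂ) • star (b k) (b l η) := by
    intro k hk l hl; simp [hy, hOi k hk, hOj k hk, hOi l hl, hOj l hl]
  have ydiag : ∑ l, y l l = η := by
    rw [split_sum hij, y00, y1, zero_add]
    have e : ∀ k ∈ (univ.erase i0).erase j0, y k k = (s : ℂ) • η := by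
      intro k hk
      rw [y22 k hk k hk, hinv]
    rw [Finset.sum_congr rfl e, Finset.sum_const, ← hO, ← Nat.cast_smul_eq_nsmul ℂ, smul_smul,
      ← add_smul]
    have e2 : ((1 - s * m : ℝ) : ℂ) + (O.card : ℂ) * (s : ℂ) = 1 := by
      have : (O.card : ℂ) = ((m : ℝ) : ℂ) := by rw [← hcard]; simp
      rw [this]; push_cast; ring
    rw [e2, one_smul]
  -- contractivity
  have hwT : ∀ k, ‖wT k‖ ≤ 1 := by
    intro k
    fin_cases k <;> simp [wT]
  have hcontr : ∀ ω : Fin n → Fin 4, ‖∑ l, wT (ω l) • Al l‖ ≤ 1 := by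
    intro ω
    have e1 : ∑ l, wT (ω l) • Al l =
        (wT (ω i0) • a i0 + ∑ k ∈ O, wT (ω k) • a k) + u * (wT (ω i0) • a j0) := by
      rw [split_sum hij, A0, A1, smul_zero, zero_add, smul_add, mul_smul_comm]
      have e : ∀ k ∈ (univ.erase i0).erase j0, wT (ω k) • Al k = wT (ω k) • a k := by
        intro k hk
        rw [A2 k hk]
      rw [Finset.sum_congr rfl e]
      abel
    rw [e1]
    have hcu : ∀ i, a i * u = u * a i := by
      intro i
      rw [hu, ← mul_assoc, hab', mul_assoc, hab, mul_assoc]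
    apply spine
    · rw [hu, star_mul, star_star, mul_assoc, ← mul_assoc (b i0), hb', one_mul, hb]
    · rw [hu, star_mul, star_star, mul_assoc, ← mul_assoc (b j0), hb', one_mul, hb]
    · rw [add_mul, mul_add, smul_mul_assoc, mul_smul_comm, hcu, Finset.sum_mul, Finset.mul_sum]
      congr 1
      refine Finset.sum_congr rfl fun k _ => ?_
      rw [smul_mul_assoc, mul_smul_comm, hcu]
    · rw [smul_mul_assoc, mul_smul_comm, hcu]
    · intro ζ hζ
      have e2 : (wT (ω i0) • a i0 + ∑ k ∈ O, wT (ω k) • a k) + ζ • (wT (ω i0) • a j0) =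
          ∑ k, (if k = j0 then ζ * wT (ω i0) else wT (ω k)) • a k := by
        rw [split_sum hij, if_neg hij, if_pos rfl, smul_smul]
        have e : ∀ k ∈ (univ.erase i0).erase j0,
            (if k = j0 then ζ * wT (ω i0) else wT (ω k)) • a k = wT (ω k) • a k := by
          intro k hk
          rw [if_neg (hOj k hk)]
        rw [Finset.sum_congr rfl e]
        abel
      rw [e2]
      apply ha
      intro k
      split_ifs
      · rw [norm_mul]
        exact mul_le_one₀ hζ (norm_nonneg _) (hwT _)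
      · exact hwT _
  -- pointwise bound
  have hpt : ∀ ω : Fin n → Fin 4, ‖⟪∑ i, wT (ω i) • F i +
        ∑ k, ∑ l, (wT (ω k) ^ 2 * conj (wT (ω l))) • H k l, (∑ l, wT (ω l) • Al l)
      (∑ i, ∑ l, (wT (ω i) * conj (wT (ω l))) • y i l)⟫_ℂ‖ ≤
      ‖∑ i, wT (ω i) • F i + ∑ k, ∑ l, (wT (ω k) ^ 2 * conj (wT (ω l))) • H k l‖ *
        ‖∑ i, ∑ l, (wT (ω i) * conj (wT (ω l))) • y i l‖ := by
    intro ω
    refine (norm_inner_le_norm _ _).trans ?_
    gcongr
    have := (∑ l, wT (ω l) • Al l).le_of_opNorm_le (hcontr ω)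
      (∑ i, ∑ l, (wT (ω i) * conj (wT (ω l))) • y i l)
    rwa [one_mul] at this
  -- expansion
  have hexp : ∀ ω : Fin n → Fin 4, ⟪∑ i, wT (ω i) • F i, (∑ l, wT (ω l) • Al l)
      (∑ i, ∑ l, (wT (ω i) * conj (wT (ω l))) • y i l)⟫_ℂ =
      ∑ l, ∑ i, ∑ j, ∑ k, (wT (ω l) * wT (ω j) * conj (wT (ω i)) * conj (wT (ω k))) •
        ⟪F i, Al l (y j k)⟫_ℂ := by
    intro ω
    rw [_root_.sum_apply, inner_sum]
    refine Finset.sum_congr rfl fun l _ => ?_
    rw [sum_inner]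
    refine Finset.sum_congr rfl fun i _ => ?_
    rw [_root_.smul_apply, map_sum, Finset.smul_sum, inner_sum]
    refine Finset.sum_congr rfl fun j _ => ?_
    rw [map_sum, Finset.smul_sum, inner_sum]
    refine Finset.sum_congr rfl fun k _ => ?_
    rw [map_smul, smul_smul, inner_smul_left, inner_smul_right, smul_eq_mul]
    ring
  set q : ℂ := ∑ k ∈ O, ⟪ξ, a k (b k η)⟫_ℂ with hq
  set P0 : ℂ := ⟪ξ, (a i0 * b i0 + a j0 * b j0) η⟫_ℂ with hP0
  have B1 : ∀ v : K, ⟪F i0, Al i0 v⟫_ℂ = ⟪ξ, (a i0 * b i0 + a j0 * b j0) v⟫_ℂ := by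
    intro v
    rw [F0, A0, hadj]
    congr 1
    change b i0 (a i0 v + star (b i0) (b j0 (a j0 v))) = a i0 (b i0 v) + a j0 (b j0 v)
    rw [map_add, hinv', hcm, hcm]
  have B2 : ∀ k ∈ O, ∀ v : K, ⟪F k, Al k v⟫_ℂ = (t : ℂ) * ⟪ξ, a k (b k v)⟫_ℂ := by
    intro k hk v
    rw [F2 k hk, A2 k hk, inner_smul_left, hadj, hcm, Complex.conj_ofReal]
  have B3 : ∀ l ∈ O, ∀ v : K, ⟪F i0, Al l (star (b i0) v)⟫_ℂ = ⟪ξ, a l v⟫_ℂ := by
    intro l hl v
    rw [F0, A2 l hl, hadj, hcm', hinv']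
  have B4 : ∀ k ∈ O, ∀ l ∈ O, ∀ v : K, ⟪F k, Al l (star (b k) v)⟫_ℂ = (t : ℂ) * ⟪ξ, a l v⟫_ℂ := by
    intro k hk l hl v
    rw [F2 k hk, A2 l hl, inner_smul_left, hadj, hcm', hinv', Complex.conj_ofReal]
  have S1 : ∑ l, ∑ j, ⟪F l, Al l (y j j)⟫_ℂ = P0 + (t : ℂ) * q := by
    have e : ∀ l, ∑ j, ⟪F l, Al l (y j j)⟫_ℂ = ⟪F l, Al l η⟫_ℂ := by
      intro l
      rw [← inner_sum, ← map_sum, ydiag]
    simp only [e]
    rw [split_sum hij, B1, F1, inner_zero_left, zero_add, ← hO,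
      Finset.sum_congr rfl fun k hk => B2 k hk η, ← Finset.mul_sum]
  have hcardC : (O.card : ℂ) = ((m : ℝ) : ℂ) := by rw [← hcard]; simp
  have S2 : ∑ l, ∑ j, ⟪F j, Al l (y j l)⟫_ℂ =
      ((1 - s * m : ℝ) : ℂ) * P0 + (p : ℂ) * q + (m : ℂ) * ((s : ℂ) * ((t : ℂ) * q)) := by
    rw [Finset.sum_comm, split_sum hij]
    have e0 : ∑ l, ⟪F i0, Al l (y i0 l)⟫_ℂ = ((1 - s * m : ℝ) : ℂ) * P0 + (p : ℂ) * q := by
      rw [split_sum hij, y00, y01, map_zero, inner_zero_right, zero_add, map_smul, inner_smul_right,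
        B1, ← hO, ← hP0]
      congr 1
      rw [hq, Finset.mul_sum]
      refine Finset.sum_congr rfl fun k hk => ?_
      rw [y02 k hk, map_smul, inner_smul_right, B3 k hk]
    have e1 : ∑ l, ⟪F j0, Al l (y j0 l)⟫_ℂ = 0 := by
      simp [F1]
    have e2 : ∀ j ∈ O, ∑ l, ⟪F j, Al l (y j l)⟫_ℂ = (s : ℂ) * ((t : ℂ) * q) := by
      intro j hj
      rw [split_sum hij, y20 j hj, y21 j hj, map_zero, map_zero, inner_zero_right, zero_add,
        zero_add, ← hO, hq, Finset.mul_sum, Finset.mul_sum]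
      refine Finset.sum_congr rfl fun k hk => ?_
      rw [y22 j hj k hk, map_smul, inner_smul_right, B4 j hj k hk]
    rw [e0, e1, zero_add, ← hO, Finset.sum_congr rfl e2, Finset.sum_const, nsmul_eq_mul, hcardC]
  have S3 : ∑ l, ⟪F l, Al l (y l l)⟫_ℂ =
      ((1 - s * m : ℝ) : ℂ) * P0 + (s : ℂ) * ((t : ℂ) * q) := by
    rw [split_sum hij, y00, F1, inner_zero_left, zero_add, map_smul, inner_smul_right, B1, ← hO,
      ← hP0]
    congr 1
    rw [hq, Finset.mul_sum, Finset.mul_sum]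
    refine Finset.sum_congr rfl fun k hk => ?_
    rw [y22 k hk k hk, map_smul, inner_smul_right, B4 k hk k hk]
  have hadj2 : ∀ l (v w : K), ⟪b l v, w⟫_ℂ = ⟪v, star (b l) w⟫_ℂ := by
    intro l v w
    rw [ContinuousLinearMap.star_eq_adjoint, ContinuousLinearMap.adjoint_inner_right]
  have B5 : ∀ k ∈ O, ∀ l ∈ O, k ≠ l → ⟪H k l, Al k (y k l)⟫_ℂ =
      (r : ℂ) * ((s : ℂ) * ⟪ξ, a k (b k η)⟫_ℂ) := by
    intro k hk l hl hkl
    rw [H1 k hk l hl hkl, A2 k hk, y22 k hk l hl, map_smul, inner_smul_left, inner_smul_right,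
      Complex.conj_ofReal, hadj, hadj2, hadj, hcm', hinv', ← hcm', hinv, hcm]
  have hOsum : ∀ h : Fin n → ℂ, (∀ k, k ∉ O → h k = 0) → ∑ k, h k = ∑ k ∈ O, h k := by
    intro h hh
    rw [split_sum hij, hh i0 hi0, hh j0 hj0, zero_add, zero_add]
  have hOsumR : ∀ h : Fin n → ℝ, (∀ k, k ∉ O → h k = 0) → ∑ k, h k = ∑ k ∈ O, h k := by
    intro h hh
    rw [split_sum hij, hh i0 hi0, hh j0 hj0, zero_add, zero_add]
  have hcardE : ∀ k ∈ O, ((O.erase k).card : ℝ) = m - 1 := by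
    intro k hk
    have e1 := Finset.card_erase_add_one hk
    have e2 : (((O.erase k).card + 1 : ℕ) : ℝ) = m := by rw [e1, hcard]
    push_cast at e2
    linarith
  have S4 : ∑ k, ∑ l, ⟪H k l, Al k (y k l)⟫_ℂ =
      ((m - 1 : ℝ) : ℂ) * ((r : ℂ) * ((s : ℂ) * q)) := by
    rw [hOsum _ (fun k hk => by simp [H2 k hk])]
    have e1 : ∀ k ∈ O, ∑ l, ⟪H k l, Al k (y k l)⟫_ℂ =
        ((m - 1 : ℝ) : ℂ) * ((r : ℂ) * ((s : ℂ) * ⟪ξ, a k (b k η)⟫_ℂ)) := by
      intro k hk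
      rw [hOsum _ (fun l hl => by simp [H3 k l hl]), ← Finset.add_sum_erase _ _ hk, H0,
        inner_zero_left, zero_add]
      have e2 : ∀ l ∈ O.erase k, ⟪H k l, Al k (y k l)⟫_ℂ =
          (r : ℂ) * ((s : ℂ) * ⟪ξ, a k (b k η)⟫_ℂ) := fun l hl =>
        B5 k hk l (mem_of_mem_erase hl) (Finset.ne_of_mem_erase hl).symm
      rw [Finset.sum_congr rfl e2, Finset.sum_const, nsmul_eq_mul, ← hcardE k hk]
      simp
    rw [Finset.sum_congr rfl e1, ← Finset.mul_sum, ← Finset.mul_sum, ← Finset.mul_sum, ← hq]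
  have hcub : ∑ ω : Fin n → Fin 4, ⟪∑ k, ∑ l, (wT (ω k) ^ 2 * conj (wT (ω l))) • H k l,
      (∑ l, wT (ω l) • Al l) (∑ i, ∑ l, (wT (ω i) * conj (wT (ω l))) • y i l)⟫_ℂ =
      (N : ℂ) * (((m - 1 : ℝ) : ℂ) * ((r : ℂ) * ((s : ℂ) * q))) := by
    have h := sum_cubic H H0 (fun c a b => Al c (y a b))
    rw [S4] at h
    have hN' : (N : ℂ) = (4 : ℂ) ^ n := by rw [hN]; simp
    rw [hN', ← h]
    refine Finset.sum_congr rfl fun ω _ => ?_
    congr 1
    rw [_root_.sum_apply]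
    refine Finset.sum_congr rfl fun c _ => ?_
    rw [_root_.smul_apply, map_sum, Finset.smul_sum]
    refine Finset.sum_congr rfl fun a _ => ?_
    rw [map_sum, Finset.smul_sum]
    refine Finset.sum_congr rfl fun b _ => ?_
    rw [map_smul, smul_smul, mul_assoc]
  have htot : ∑ ω : Fin n → Fin 4, ⟪∑ i, wT (ω i) • F i +
        ∑ k, ∑ l, (wT (ω k) ^ 2 * conj (wT (ω l))) • H k l, (∑ l, wT (ω l) • Al l)
      (∑ i, ∑ l, (wT (ω i) * conj (wT (ω l))) • y i l)⟫_ℂ =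
      (N : ℂ) * (P0 + ((t + p + (m - 1) * ((t + r) * s) : ℝ) : ℂ) * q) := by
    simp only [inner_add_left, Finset.sum_add_distrib]
    rw [hcub]
    simp only [hexp]
    rw [sum_tensor mom_wT (fun l i j k => ⟪F i, Al l (y j k)⟫_ℂ)]
    rw [S1, S2, S3, hN, smul_eq_mul, smul_eq_mul]
    push_cast
    ring
  have hsum : ‖∑ ω : Fin n → Fin 4, ⟪∑ i, wT (ω i) • F i +
        ∑ k, ∑ l, (wT (ω k) ^ 2 * conj (wT (ω l))) • H k l, (∑ l, wT (ω l) • Al l)
      (∑ i, ∑ l, (wT (ω i) * conj (wT (ω l))) • y i l)⟫_ℂ‖ ≤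
      Real.sqrt (N * ((1 + m * t ^ 2 + m * (m - 1) * r ^ 2) * ‖ξ‖ ^ 2)) *
      Real.sqrt (N * ((1 + m * p ^ 2 + m * (m - 1) * s ^ 2) * ‖η‖ ^ 2)) := by
    refine (norm_sum_le _ _).trans ((Finset.sum_le_sum fun ω _ => hpt ω).trans ?_)
    refine (Real.sum_mul_le_sqrt_mul_sqrt _ _ _).trans ?_
    rw [avg_cubic F H H0, avg_quartic (c := 1) (by exact_mod_cast mom_wT) y]
    apply le_of_eq
    congr 3
    · rw [split_sum hij, F0, F1, hiso', ← hO]
      have e : ∀ k ∈ O, ‖F k‖ ^ 2 = t ^ 2 * ‖ξ‖ ^ 2 := by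
        intro k hk
        rw [F2 k hk, norm_smul, hiso', Complex.norm_real, mul_pow, Real.norm_eq_abs, sq_abs]
      have eH : ∑ k, ∑ l, ‖H k l‖ ^ 2 = m * ((m - 1) * (r ^ 2 * ‖ξ‖ ^ 2)) := by
        rw [hOsumR _ (fun k hk => by simp [H2 k hk])]
        have e1 : ∀ k ∈ O, ∑ l, ‖H k l‖ ^ 2 = (m - 1) * (r ^ 2 * ‖ξ‖ ^ 2) := by
          intro k hk
          rw [hOsumR _ (fun l hl => by simp [H3 k l hl]), ← Finset.add_sum_erase _ _ hk, H0,
            norm_zero]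
          have e2 : ∀ l ∈ O.erase k, ‖H k l‖ ^ 2 = r ^ 2 * ‖ξ‖ ^ 2 := by
            intro l hl
            rw [H1 k hk l (mem_of_mem_erase hl) (Finset.ne_of_mem_erase hl).symm, norm_smul,
              hiso', hiso, hiso', Complex.norm_real, mul_pow, Real.norm_eq_abs, sq_abs]
          rw [Finset.sum_congr rfl e2, Finset.sum_const, nsmul_eq_mul, hcardE k hk]
          ring
        rw [Finset.sum_congr rfl e1, Finset.sum_const, nsmul_eq_mul, hcard]
      rw [Finset.sum_congr rfl e, Finset.sum_const, nsmul_eq_mul, hcard, norm_zero, eH]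
      ring
    · rw [ydiag]
      have e1 : ∑ l, ‖y l l‖ ^ 2 = ((1 - s * m) ^ 2 + m * s ^ 2) * ‖η‖ ^ 2 := by
        rw [split_sum hij, y00, y1, norm_zero, ← hO]
        have e : ∀ k ∈ O, ‖y k k‖ ^ 2 = s ^ 2 * ‖η‖ ^ 2 := by
          intro k hk
          rw [y22 k hk k hk, norm_smul, hiso', hiso, Complex.norm_real, mul_pow, Real.norm_eq_abs,
            sq_abs]
        rw [Finset.sum_congr rfl e, Finset.sum_const, nsmul_eq_mul, hcard, norm_smul,
          Complex.norm_real, mul_pow, Real.norm_eq_abs, sq_abs]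
        ring
      have e2 : ∑ l, ∑ j, ‖y j l‖ ^ 2 =
          ((1 - s * m) ^ 2 + m * p ^ 2 + m * (m * s ^ 2)) * ‖η‖ ^ 2 := by
        rw [Finset.sum_comm, split_sum hij]
        have f0 : ∑ l, ‖y i0 l‖ ^ 2 = ((1 - s * m) ^ 2 + m * p ^ 2) * ‖η‖ ^ 2 := by
          rw [split_sum hij, y00, y01, norm_zero, ← hO]
          have e : ∀ k ∈ O, ‖y i0 k‖ ^ 2 = p ^ 2 * ‖η‖ ^ 2 := by
            intro k hk
            rw [y02 k hk, norm_smul, hiso', hiso, Complex.norm_real, mul_pow, Real.norm_eq_abs,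
              sq_abs]
          rw [Finset.sum_congr rfl e, Finset.sum_const, nsmul_eq_mul, hcard, norm_smul,
            Complex.norm_real, mul_pow, Real.norm_eq_abs, sq_abs]
          ring
        have f1 : ∑ l, ‖y j0 l‖ ^ 2 = 0 := by simp [y1]
        have f2 : ∀ j ∈ O, ∑ l, ‖y j l‖ ^ 2 = m * s ^ 2 * ‖η‖ ^ 2 := by
          intro j hj
          rw [split_sum hij, y20 j hj, y21 j hj, norm_zero, ← hO]
          have e : ∀ k ∈ O, ‖y j k‖ ^ 2 = s ^ 2 * ‖η‖ ^ 2 := by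
            intro k hk
            rw [y22 j hj k hk, norm_smul, hiso', hiso, Complex.norm_real, mul_pow,
              Real.norm_eq_abs, sq_abs]
          rw [Finset.sum_congr rfl e, Finset.sum_const, nsmul_eq_mul, hcard]
          ring
        rw [f0, f1, ← hO, Finset.sum_congr rfl f2, Finset.sum_const, nsmul_eq_mul, hcard]
        ring
      rw [e1, e2]
      ring
  rw [htot] at hsum
  have e5 : ‖(N : ℂ) * (P0 + ((t + p + (m - 1) * ((t + r) * s) : ℝ) : ℂ) * q)‖ =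
      N * ‖P0 + ((t + p + (m - 1) * ((t + r) * s) : ℝ) : ℂ) * q‖ := by
    rw [norm_mul, Complex.norm_real, Real.norm_of_nonneg hNpos.le]
  have e6 : Real.sqrt (N * ((1 + m * t ^ 2 + m * (m - 1) * r ^ 2) * ‖ξ‖ ^ 2)) *
      Real.sqrt (N * ((1 + m * p ^ 2 + m * (m - 1) * s ^ 2) * ‖η‖ ^ 2)) =
      N * (Real.sqrt ((1 + m * t ^ 2 + m * (m - 1) * r ^ 2) * ‖ξ‖ ^ 2) *
        Real.sqrt ((1 + m * p ^ 2 + m * (m - 1) * s ^ 2) * ‖η‖ ^ 2)) := by
    rw [Real.sqrt_mul hNpos.le, Real.sqrt_mul hNpos.le]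
    have h1 := Real.mul_self_sqrt hNpos.le
    calc _ = (Real.sqrt N * Real.sqrt N) * (Real.sqrt ((1 + m * t ^ 2 + m * (m - 1) * r ^ 2) * ‖ξ‖ ^ 2) *
        Real.sqrt ((1 + m * p ^ 2 + m * (m - 1) * s ^ 2) * ‖η‖ ^ 2)) := by ring
      _ = _ := by rw [h1]
  rw [e5, e6] at hsum
  have hfin := le_of_mul_le_mul_left hsum hNpos
  have e7 : ⟪ξ, (a i0 * b i0 + a j0 * b j0) η + ((t + p + (m - 1) * ((t + r) * s) : ℝ) : ℂ) •
      ∑ k ∈ O, (a k * b k) η⟫_ℂ = P0 + ((t + p + (m - 1) * ((t + r) * s) : ℝ) : ℂ) * q := by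
    rw [inner_add_right, inner_smul_right, inner_sum]
    rfl
  rw [e7]
  exact hfin

end

end Pool.Agent.Helper626.Alpha
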