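import Mathlib
import Pool.Agent.Helper626.Alpha.Pair

set_option autoImplicit false

open scoped InnerProductSpace

open Finset ComplexConjugate

namespace Pool.Agent.Helper626.Alpha

open Pool.Agent.Helper547.Alpha

/-- `μ_n = n + √(n² - n + 2)`. -/
noncomputable def mu (n : ℕ) : ℝ := (n : ℝ) + Real.sqrt ((n : ℝ) ^ 2 - n + 2)

section

variable {n : ℕ}
variable {K : Type*} [NormedAddCommGroup K] [InnerProductSpace ℂ K] [CompleteSpace K]

theorem core_new (hn : 2 ≤ n) (a b : Fin n → K →L[ℂ] K) (hab : ∀ i j, a i * b j = b j * a i)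
    (hab' : ∀ i j, a i * star (b j) = star (b j) * a i)
    (ha : ∀ z : Fin n → ℂ, (∀ i, ‖z i‖ ≤ 1) → ‖∑ i, z i • a i‖ ≤ 1)
    (hb : ∀ i, star (b i) * b i = 1) (hb' : ∀ i, b i * star (b i) = 1) :
    ‖∑ i, a i * b i‖ ≤ n / Real.sqrt (mu n) := by
  have hn2 : (2 : ℝ) ≤ n := by exact_mod_cast hn
  set m : ℝ := (n : ℝ) - 2 with hm
  have hm0 : 0 ≤ m := by linarith
  have hmm : 0 ≤ m * (m - 1) := by
    rcases (by omega : n = 2 ∨ 3 ≤ n) with h | h
    · rw [hm, h]; norm_num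
    · have h3 : (3 : ℝ) ≤ n := by exact_mod_cast h
      apply mul_nonneg <;> linarith
  set D := Real.sqrt ((n : ℝ) ^ 2 - n + 2) with hD
  have hD2 : D ^ 2 = (n : ℝ) ^ 2 - n + 2 := Real.sq_sqrt (by nlinarith)
  have hD0 : 0 ≤ D := Real.sqrt_nonneg _
  set μ := mu n with hμ
  have hmu : μ = n + D := rfl
  have hquad : μ ^ 2 - (2 * m + 4) * μ + m = 0 := by
    rw [hmu, hm]; nlinarith
  have hμ0 : 0 < μ := by rw [hmu]; linarith
  have hμm : 0 < μ - m := by rw [hmu, hm]; linarith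
  set p : ℝ := 2 / (μ - m) with hp
  set s : ℝ := 1 / (μ - m) with hs
  set t : ℝ := (μ - 1) / (2 * μ) with ht
  set r : ℝ := 1 / (2 * μ) with hr
  have hne : μ - m ≠ 0 := hμm.ne'
  have hne' : μ ≠ 0 := hμ0.ne'
  have r1 : μ * p = 2 + m * p := by
    have : p * (μ - m) = 2 := by rw [hp]; field_simp
    linarith
  have r3 : p * (2 + m * t) = 1 := by
    have : p * (2 + m * t) = (4 * μ + m * (μ - 1)) / (μ * (μ - m)) := by
      rw [hp, ht]; field_simp
      ring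
    rw [this, div_eq_one_iff_eq (by positivity)]
    nlinarith
  have r4 : μ * (p * t) = 1 + (m - 1) * s := by
    have h1 : μ * (p * t) = (μ - 1) / (μ - m) := by
      rw [hp, ht]; field_simp
    have h2 : 1 + (m - 1) * s = (μ - 1) / (μ - m) := by
      rw [hs]; field_simp; ring
    rw [h1, h2]
  have r5 : μ * (p * r) = s := by
    rw [hp, hr, hs]; field_simp
  have r6 : p * (t + r) = s := by
    rw [hp, ht, hr, hs]; field_simp; ring
  set lam : ℝ := t + p + (m - 1) * ((t + r) * s) with hlam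
  set Nn : ℝ := 2 + m * lam with hNn
  set Fc : ℝ := 1 + m * t ^ 2 + m * (m - 1) * r ^ 2 with hFc
  set G : ℝ := 1 + m * p ^ 2 + m * (m - 1) * s ^ 2 with hG
  have hN1 : Nn = μ * p * Fc := by
    have : μ * p * Fc = μ * p + m * t * (μ * (p * t)) + m * (m - 1) * r * (μ * (p * r)) := by
      rw [hFc]; ring
    rw [this, r4, r5, r1, hNn, hlam]; ring
  have hN2 : p * Nn = G := by
    have : p * Nn = p * (2 + m * t) + m * p ^ 2 + m * (m - 1) * (p * (t + r)) * s := by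
      rw [hNn, hlam]; ring
    rw [this, r3, r6, hG]; ring
  have hp0 : 0 < p := by rw [hp]; positivity
  have hF0 : 0 < Fc := by rw [hFc]; positivity
  have hNpos : 0 < Nn := by rw [hN1]; positivity
  have hG0 : 0 < G := by rw [← hN2]; positivity
  have hNsq : Nn ^ 2 = μ * Fc * G := by
    calc Nn ^ 2 = Nn * Nn := by ring
      _ = μ * p * Fc * Nn := by rw [← hN1]
      _ = μ * Fc * (p * Nn) := by ring
      _ = _ := by rw [hN2]
  -- the estimate
  apply ContinuousLinearMap.opNorm_le_bound _ (by positivity)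
  intro η
  set T := ∑ i, a i * b i with hT
  set c : Fin n → K := fun i => (a i * b i) η with hc
  have hTc : T η = ∑ i, c i := by
    rw [hT, _root_.sum_apply]
  set ξ := T η with hξ
  have hpair : ∀ i0 j0 : Fin n, i0 ≠ j0 →
      ‖⟪ξ, (c i0 + c j0) + (lam : ℂ) • (ξ - c i0 - c j0)⟫_ℂ‖ ≤
        Real.sqrt (Fc * ‖ξ‖ ^ 2) * Real.sqrt (G * ‖η‖ ^ 2) := by
    intro i0 j0 hij
    have h := pair_est a b hab hab' ha hb hb' hij t p s r ξ η
    have e : ∑ k ∈ (univ.erase i0).erase j0, (a k * b k) η = ξ - c i0 - c j0 := by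
      have h1 := split_sum hij c
      rw [hTc, h1]
      abel
    rw [e] at h
    exact h
  have hall : ∑ i0 : Fin n, ∑ j0 ∈ univ.erase i0, ((c i0 + c j0) + (lam : ℂ) • (ξ - c i0 - c j0)) =
      ((((n : ℝ) - 1) * Nn : ℝ) : ℂ) • ξ := by
    have hcard : ∀ i0 : Fin n, ((univ.erase i0 : Finset (Fin n)).card : ℂ) = (n : ℂ) - 1 := by
      intro i0
      rw [Finset.card_erase_of_mem (mem_univ _), Finset.card_univ, Fintype.card_fin,
        Nat.cast_sub (by omega)]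
      simp
    have e1 : ∀ i0 : Fin n, ∑ j0 ∈ univ.erase i0, ((c i0 + c j0) + (lam : ℂ) • (ξ - c i0 - c j0)) =
        ((1 - (lam : ℂ)) * ((n : ℂ) - 2)) • c i0 + ((1 - (lam : ℂ)) + (lam : ℂ) * ((n : ℂ) - 1)) • ξ := by
      intro i0
      have e2 : ∀ j0 ∈ univ.erase i0, ((c i0 + c j0) + (lam : ℂ) • (ξ - c i0 - c j0)) =
          ((1 - (lam : ℂ)) • c i0 + (lam : ℂ) • ξ) + (1 - (lam : ℂ)) • c j0 := by
        intro j0 _
        simp only [smul_sub, sub_smul, one_smul]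
        abel
      rw [Finset.sum_congr rfl e2, Finset.sum_add_distrib, Finset.sum_const, ← Finset.smul_sum,
        ← Nat.cast_smul_eq_nsmul ℂ, hcard]
      have e3 : ∑ j0 ∈ univ.erase i0, c j0 = ξ - c i0 := by
        rw [hTc, ← Finset.add_sum_erase _ _ (mem_univ i0)]
        abel
      rw [e3]
      module
    rw [Finset.sum_congr rfl fun i0 _ => e1 i0, Finset.sum_add_distrib, ← Finset.smul_sum, ← hTc,
      Finset.sum_const, Finset.card_univ, Fintype.card_fin, ← Nat.cast_smul_eq_nsmul ℂ, smul_smul,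
      ← add_smul]
    congr 1
    rw [hNn, hm]
    push_cast
    ring
  have hbound : ‖⟪ξ, ((((n : ℝ) - 1) * Nn : ℝ) : ℂ) • ξ⟫_ℂ‖ ≤
      (n : ℝ) * ((n : ℝ) - 1) * (Real.sqrt (Fc * ‖ξ‖ ^ 2) * Real.sqrt (G * ‖η‖ ^ 2)) := by
    rw [← hall, inner_sum]
    have hcard : ∀ i0 : Fin n, ((univ.erase i0 : Finset (Fin n)).card : ℝ) = (n : ℝ) - 1 := by
      intro i0
      rw [Finset.card_erase_of_mem (mem_univ _), Finset.card_univ, Fintype.card_fin,
        Nat.cast_sub (by omega)]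
      simp
    refine (norm_sum_le _ _).trans ?_
    have e1 : ∀ i0 ∈ (univ : Finset (Fin n)),
        ‖⟪ξ, ∑ j0 ∈ univ.erase i0, ((c i0 + c j0) + (lam : ℂ) • (ξ - c i0 - c j0))⟫_ℂ‖ ≤
        ((n : ℝ) - 1) * (Real.sqrt (Fc * ‖ξ‖ ^ 2) * Real.sqrt (G * ‖η‖ ^ 2)) := by
      intro i0 _
      rw [inner_sum]
      refine (norm_sum_le _ _).trans ?_
      refine (Finset.sum_le_sum fun j0 hj0 => hpair i0 j0 (Finset.ne_of_mem_erase hj0).symm).trans ?_
      rw [Finset.sum_const, nsmul_eq_mul, hcard]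
    refine (Finset.sum_le_sum e1).trans ?_
    rw [Finset.sum_const, nsmul_eq_mul, Finset.card_univ, Fintype.card_fin, mul_assoc]
  rw [inner_smul_right, norm_mul, Complex.norm_real, inner_self_eq_norm_sq_to_K] at hbound
  have e5 : ‖((‖ξ‖ : ℂ)) ^ 2‖ = ‖ξ‖ ^ 2 := by
    rw [norm_pow, Complex.norm_real, norm_norm]
  have hn1 : (0 : ℝ) < (n : ℝ) - 1 := by linarith
  change ‖(((n : ℝ) - 1) * Nn : ℝ)‖ * ‖((‖ξ‖ : ℂ)) ^ 2‖ ≤ _ at hbound
  rw [e5, Real.norm_of_nonneg (by positivity)] at hbound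
  rw [Real.sqrt_mul hF0.le, Real.sqrt_mul hG0.le, Real.sqrt_sq (norm_nonneg _),
    Real.sqrt_sq (norm_nonneg _)] at hbound
  have h3 : ((n : ℝ) - 1) * (Nn * ‖ξ‖ * ‖ξ‖) ≤
      ((n : ℝ) - 1) * ((n : ℝ) * (Real.sqrt Fc * Real.sqrt G) * ‖η‖ * ‖ξ‖) := by
    calc _ = ((n : ℝ) - 1) * Nn * ‖ξ‖ ^ 2 := by ring
      _ ≤ _ := hbound
      _ = _ := by ring
  have h4 := le_of_mul_le_mul_left h3 hn1
  have hsq : Real.sqrt μ * (Real.sqrt Fc * Real.sqrt G) = Nn := by
    rw [← Real.sqrt_mul hF0.le, ← Real.sqrt_mul hμ0.le, ← mul_assoc, ← hNsq, Real.sqrt_sq hNpos.le]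
  have hFG : 0 < Real.sqrt Fc * Real.sqrt G :=
    mul_pos (Real.sqrt_pos.2 hF0) (Real.sqrt_pos.2 hG0)
  have hsμ : 0 < Real.sqrt μ := Real.sqrt_pos.2 hμ0
  rw [div_mul_eq_mul_div, le_div_iff₀ hsμ]
  rcases (norm_nonneg ξ).eq_or_lt with h0 | h0
  · rw [← h0, zero_mul]; positivity
  · have h5 := le_of_mul_le_mul_right h4 h0
    have h6 : (Real.sqrt Fc * Real.sqrt G) * (‖ξ‖ * Real.sqrt μ) ≤
        (Real.sqrt Fc * Real.sqrt G) * ((n : ℝ) * ‖η‖) := by
      calc _ = (Real.sqrt μ * (Real.sqrt Fc * Real.sqrt G)) * ‖ξ‖ := by ring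
        _ = Nn * ‖ξ‖ := by rw [hsq]
        _ ≤ _ := h5
        _ = _ := by ring
    exact le_of_mul_le_mul_left h6 hFG

end

end Pool.Agent.Helper626.Alpha
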