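import Mathlib
import Pool.Agent.Helper626.Alpha.Core
import Pool.Agent.Helper547.Alpha.TensorG
import Pool.Agent.Helper547.Alpha.Upper

set_option autoImplicit false
set_option linter.unusedSectionVars false

open scoped InnerProductSpace

open Finset ComplexConjugate Filter Topology
open scoped Matrix.Norms.L2Operator ComplexOrder
open Matrix

namespace Pool.Agent.Helper626.Alpha

open Pool.Agent.Helper547.Alpha

theorem ub_new (n : ℕ) (hn : 2 ≤ n) : UB (Fin n → ℂ) (n / Real.sqrt (mu n)) := by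
  intro m x hx H _ _ _ u hu
  set M : Fin n → Matrix (Fin m) (Fin m) ℂ := fun l => Matrix.of fun i j => x i j l with hM
  set e : Fin n → (Fin n → ℂ) := fun l => Pi.single l 1 with he
  have hxe : ∀ i j, x i j = ∑ l, M l i j • e l := by
    intro i j
    ext k
    simp [hM, he, Pi.single_apply]
  have hM1 : ∀ l, ‖M l‖ ≤ 1 := by
    intro l
    have h1 := map_le_of_minNorm hx (ContinuousLinearMap.proj l) (by
      apply ContinuousLinearMap.opNorm_le_bound _ zero_le_one
      intro v
      rw [one_mul]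
      exact norm_le_pi_norm v l)
    exact h1
  choose V hV1 hV2 hV3 using fun l => exists_unitary_dilation (M l) (hM1 l)
  have hC : (0 : ℝ) ≤ n / Real.sqrt (mu n) := by positivity
  have hT : ‖∑ l, diagOpG (Fin m ⊕ Fin m) (u (e l)) * matOpG H (V l)‖ ≤ n / Real.sqrt (mu n) := by
    apply core_new hn
    · intro i j; exact (mat_diag_commG _ _).symm
    · intro i j; rw [matOpG_star]; exact (mat_diag_commG _ _).symm
    · intro z hz
      rw [← diagOpG_sum]
      refine (diagOpG_norm_le _).trans ?_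
      have e1 : ∑ i, z i • u (e i) = u z := by
        have : z = ∑ i, z i • e i := by
          ext k; simp [he, Pi.single_apply]
        conv_rhs => rw [this, map_sum]
        simp
      rw [e1]
      have hz1 : ‖z‖ ≤ 1 := (pi_norm_le_iff_of_nonneg zero_le_one).2 hz
      calc ‖u z‖ ≤ ‖u‖ * ‖z‖ := u.le_opNorm _
        _ ≤ 1 * 1 := by gcongr
        _ = 1 := one_mul _
    · intro l
      rw [matOpG_star, matOpG_mul, hV1, matOpG_one]
    · intro l
      rw [matOpG_star, matOpG_mul, hV2, matOpG_one]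
  apply opNorm_le hC
  intro ξ
  set T := ∑ l, diagOpG (Fin m ⊕ Fin m) (u (e l)) * matOpG H (V l) with hTdef
  set ζ : HKG (Fin m ⊕ Fin m) H := WithLp.toLp 2 (Sum.elim ξ (fun _ => 0)) with hζ
  have e1 : ∀ i, ∑ j, (x.map u) i j (ξ j) = T ζ (Sum.inl i) := by
    intro i
    simp only [Matrix.map_apply, hxe, map_sum, map_smul, _root_.sum_apply, _root_.smul_apply, hTdef,
      WithLp.ofLp_sum, Finset.sum_apply]
    rw [Finset.sum_comm]
    refine Finset.sum_congr rfl fun l _ => ?_
    change _ = u (e l) (∑ j, V l (Sum.inl i) j • ζ j)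
    rw [Fintype.sum_sum_type, map_add, map_sum, map_sum]
    have e3 : ∀ j : Fin m, u (e l) (V l (Sum.inl i) (Sum.inr j) • ζ (Sum.inr j)) = 0 := by
      intro j
      rw [hζ]; simp
    simp only [e3, Finset.sum_const_zero, add_zero]
    refine Finset.sum_congr rfl fun j _ => ?_
    rw [map_smul, hV3]
    rfl
  simp only [e1]
  have e2 : ∑ j, ‖ξ j‖ ^ 2 = ‖ζ‖ ^ 2 := by
    rw [hk_norm_sqG, Fintype.sum_sum_type]
    simp [hζ]
  have e4 : ∑ i, ‖T ζ (Sum.inl i)‖ ^ 2 ≤ ‖T ζ‖ ^ 2 := by
    rw [hk_norm_sqG, Fintype.sum_sum_type]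
    have : 0 ≤ ∑ i, ‖T ζ (Sum.inr i)‖ ^ 2 := Finset.sum_nonneg fun i _ => by positivity
    linarith
  rw [e2, ← mul_pow]
  refine e4.trans ?_
  gcongr
  exact (ContinuousLinearMap.le_opNorm _ _).trans (by gcongr)

end Pool.Agent.Helper626.Alpha
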